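import Pool.Agent.H61.FM.Targets

/-!
# Row FMS: the fourth moment at a point near the critical line
-/

set_option autoImplicit false

open MeasureTheory Set Filter NumberField
open scoped Real nonZeroDivisors

namespace Pool.Agent.H92.FM

open Pool.Agent.H31.CN Pool.Agent.H89.FM Pool.Agent.H61.FM

/-- Cauchy-Schwarz -/
theorem cs_mu {α : Type*} [MeasurableSpace α] {μ : Measure α} {f g : α → ℝ}
    (h1 : Integrable (fun x => f x ^ 2) μ) (h2 : Integrable (fun x => f x * g x) μ)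
    (h3 : Integrable (fun x => g x ^ 2) μ) :
    (∫ x, f x * g x ∂μ) ^ 2 ≤ (∫ x, f x ^ 2 ∂μ) * ∫ x, g x ^ 2 ∂μ := by
  have key : ∀ t : ℝ, 0 ≤ (∫ x, g x ^ 2 ∂μ) * (t * t) + (2 * ∫ x, f x * g x ∂μ) * t +
      ∫ x, f x ^ 2 ∂μ := by
    intro t
    have e : ∫ x, (f x + t * g x) ^ 2 ∂μ = (∫ x, g x ^ 2 ∂μ) * (t * t) +
        (2 * ∫ x, f x * g x ∂μ) * t + ∫ x, f x ^ 2 ∂μ := by
      have e1 : (fun x => (f x + t * g x) ^ 2) =
          fun x => (f x ^ 2 + (2 * t) * (f x * g x)) + t ^ 2 * g x ^ 2 := by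
        ext x; ring
      have h2' : Integrable (fun x => (2 * t) * (f x * g x)) μ := h2.const_mul _
      have h3' : Integrable (fun x => t ^ 2 * g x ^ 2) μ := h3.const_mul _
      have h12 : Integrable (fun x => f x ^ 2 + (2 * t) * (f x * g x)) μ := h1.add h2'
      rw [e1, integral_add h12 h3', integral_add h1 h2', integral_const_mul, integral_const_mul]
      ring
    rw [← e]
    exact integral_nonneg fun x => sq_nonneg _
  have := discrim_le_zero key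
  unfold discrim at this
  nlinarith

/-- the integral of the Gamma function -/
theorem gam_int {a c q : ℝ} (ha : 0 < a) (hc : 0 < c) (hq : 0 < q) :
    IntegrableOn (fun x : ℝ => x ^ (a - 1) * Real.exp (-(c * x / q))) (Ioi 0) ∧
      ∫ x in Ioi (0 : ℝ), x ^ (a - 1) * Real.exp (-(c * x / q)) =
        (q / c) ^ a * Real.Gamma a := by
  have hb : 0 < c / q := by positivity
  have e : (fun x : ℝ => x ^ (a - 1) * Real.exp (-(c * x / q))) =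
      fun x : ℝ => x ^ (a - 1) * Real.exp (-(c / q * x)) := by
    funext x
    congr 3
    ring
  have h1 := Real.integral_rpow_mul_exp_neg_mul_Ioi ha hb
  rw [e]
  constructor
  · by_contra h
    rw [integral_undef h] at h1
    have h2 : 0 < (1 / (c / q)) ^ a * Real.Gamma a :=
      mul_pos (Real.rpow_pos_of_pos (by positivity) _) (Real.Gamma_pos_of_pos ha)
    exact absurd h1 (ne_of_lt h2)
  · rw [h1, one_div_div]

/-- the square of the partial sums with weights is integrable -/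
theorem sq_int {S : ℝ → ℂ} {C0 κ c q : ℝ} (hm : Measurable S)
    (hS : ∀ x : ℝ, 1 ≤ x → ‖S x‖ ≤ C0 * x ^ 2) (hκ : 0 < κ) (hc : 0 < c) (hq : 0 < q) :
    IntegrableOn (fun x : ℝ => ‖S x‖ ^ 2 * (x ^ (-2 + 4 * κ) * Real.exp (-(c * x / q)) ^ 2))
      (Ioi 1) := by
  have h1 := (gam_int (a := 3 + 4 * κ) (by positivity) hc hq).1
  have h2 : IntegrableOn (fun x : ℝ => C0 ^ 2 *
      (x ^ (3 + 4 * κ - 1) * Real.exp (-(c * x / q)))) (Ioi 1) :=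
    (h1.mono_set (Ioi_subset_Ioi zero_le_one)).const_mul _
  refine Integrable.mono' h2 ?_ ?_
  · refine Measurable.aestronglyMeasurable ?_
    have m1 : Measurable fun x : ℝ => x ^ (-2 + 4 * κ) := measurable_id.pow_const _
    have m2 : Measurable fun x : ℝ => Real.exp (-(c * x / q)) ^ 2 := by fun_prop
    exact (hm.norm.pow_const 2).mul (m1.mul m2)
  · refine (ae_restrict_iff' measurableSet_Ioi).2 (Eventually.of_forall fun x hx => ?_)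
    have hx1 : (1 : ℝ) < x := hx
    have hx0 : (0 : ℝ) < x := by linarith
    have e0 : 0 < Real.exp (-(c * x / q)) := Real.exp_pos _
    have e1 : Real.exp (-(c * x / q)) ≤ 1 := by
      rw [Real.exp_le_one_iff]
      have : 0 < c * x / q := by positivity
      linarith
    have p0 : 0 < x ^ (-2 + 4 * κ) := Real.rpow_pos_of_pos hx0 _
    rw [Real.norm_of_nonneg (by positivity)]
    have h3 : ‖S x‖ ^ 2 ≤ C0 ^ 2 * x ^ (4 : ℝ) := by
      have h4 : ‖S x‖ ^ 2 ≤ (C0 * x ^ 2) ^ 2 :=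
        pow_le_pow_left₀ (norm_nonneg _) (hS x hx1.le) 2
      have h5 : x ^ (4 : ℝ) = x ^ 4 := by
        rw [show (4 : ℝ) = ((4 : ℕ) : ℝ) by norm_num, Real.rpow_natCast]
      rw [h5]
      calc ‖S x‖ ^ 2 ≤ (C0 * x ^ 2) ^ 2 := h4
        _ = C0 ^ 2 * x ^ 4 := by ring
    have h6 : x ^ (4 : ℝ) * x ^ (-2 + 4 * κ) = x ^ (3 + 4 * κ - 1) := by
      rw [← Real.rpow_add hx0]
      congr 1
      ring
    calc ‖S x‖ ^ 2 * (x ^ (-2 + 4 * κ) * Real.exp (-(c * x / q)) ^ 2)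
        ≤ (C0 ^ 2 * x ^ (4 : ℝ)) * (x ^ (-2 + 4 * κ) * Real.exp (-(c * x / q))) := by
          refine mul_le_mul h3 ?_ (by positivity) (by positivity)
          refine mul_le_mul_of_nonneg_left ?_ p0.le
          nlinarith
      _ = C0 ^ 2 * (x ^ (3 + 4 * κ - 1) * Real.exp (-(c * x / q))) := by
          rw [← h6]
          ring

/-- the square of the weighted integral of the partial sums -/
theorem sq_le {S : ℝ → ℂ} {C0 κ c q q' : ℝ} (hm : Measurable S)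
    (hS : ∀ x : ℝ, 1 ≤ x → ‖S x‖ ≤ C0 * x ^ 2) (hκ : 0 < κ) (hc : 0 < c) (hq' : 0 < q')
    (hqq : q' ≤ q)
    (hi : IntegrableOn (fun x : ℝ => ‖S x‖ * x ^ (-(3 / 2) + κ) *
      Real.exp (-(c * x / q'))) (Ioi 1)) :
    (∫ x in Ioi (1 : ℝ), ‖S x‖ * x ^ (-(3 / 2) + κ) * Real.exp (-(c * x / q'))) ^ 2 ≤
      1 / (2 * κ) * ∫ x in Ioi (1 : ℝ),
        ‖S x‖ ^ 2 * (x ^ (-2 + 4 * κ) * Real.exp (-(c * x / q)) ^ 2) := by
  have hq : 0 < q := by linarith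
  have h1 : IntegrableOn (fun x : ℝ => (x ^ (-(1 / 2) - κ)) ^ 2) (Ioi 1) := by
    refine (integrableOn_Ioi_rpow_of_lt (a := -1 - 2 * κ) (by linarith) zero_lt_one).congr_fun ?_
      measurableSet_Ioi
    intro x hx
    have hx0 : (0 : ℝ) < x := lt_trans zero_lt_one hx
    show x ^ (-1 - 2 * κ) = (x ^ (-(1 / 2) - κ)) ^ 2
    rw [sq, ← Real.rpow_add hx0]
    congr 1
    ring
  have e2 : EqOn (fun x : ℝ => ‖S x‖ * x ^ (-(3 / 2) + κ) * Real.exp (-(c * x / q')))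
      (fun x : ℝ => x ^ (-(1 / 2) - κ) * (‖S x‖ * x ^ (-1 + 2 * κ) *
        Real.exp (-(c * x / q')))) (Ioi 1) := by
    intro x hx
    have hx0 : (0 : ℝ) < x := lt_trans zero_lt_one hx
    have h3 : x ^ (-(3 / 2) + κ) = x ^ (-(1 / 2) - κ) * x ^ (-1 + 2 * κ) := by
      rw [← Real.rpow_add hx0]
      congr 1
      ring
    show ‖S x‖ * x ^ (-(3 / 2) + κ) * Real.exp (-(c * x / q')) = _
    rw [h3]
    ring
  have h2 := hi.congr_fun e2 measurableSet_Ioi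
  have e3 : EqOn (fun x : ℝ => ‖S x‖ ^ 2 * (x ^ (-2 + 4 * κ) * Real.exp (-(c * x / q')) ^ 2))
      (fun x : ℝ => (‖S x‖ * x ^ (-1 + 2 * κ) * Real.exp (-(c * x / q'))) ^ 2) (Ioi 1) := by
    intro x hx
    have hx0 : (0 : ℝ) < x := lt_trans zero_lt_one hx
    have h3 : x ^ (-2 + 4 * κ) = x ^ (-1 + 2 * κ) * x ^ (-1 + 2 * κ) := by
      rw [← Real.rpow_add hx0]
      congr 1
      ring
    show ‖S x‖ ^ 2 * (x ^ (-2 + 4 * κ) * Real.exp (-(c * x / q')) ^ 2) = _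
    rw [h3]
    ring
  have h3' := sq_int hm hS hκ hc hq'
  have h3 := h3'.congr_fun e3 measurableSet_Ioi
  have key := cs_mu h1 h2 h3
  have i1 : ∫ x in Ioi (1 : ℝ), (x ^ (-(1 / 2) - κ)) ^ 2 = 1 / (2 * κ) := by
    have e1 : EqOn (fun x : ℝ => (x ^ (-(1 / 2) - κ)) ^ 2) (fun x : ℝ => x ^ (-1 - 2 * κ))
        (Ioi 1) := by
      intro x hx
      have hx0 : (0 : ℝ) < x := lt_trans zero_lt_one hx
      show (x ^ (-(1 / 2) - κ)) ^ 2 = x ^ (-1 - 2 * κ)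
      rw [sq, ← Real.rpow_add hx0]
      congr 1
      ring
    rw [setIntegral_congr_fun measurableSet_Ioi e1,
      integral_Ioi_rpow_of_lt (by linarith) zero_lt_one, Real.one_rpow,
      show -1 - 2 * κ + 1 = -(2 * κ) by ring, neg_div_neg_eq]
  rw [setIntegral_congr_fun measurableSet_Ioi e2]
  refine key.trans ?_
  rw [i1]
  refine mul_le_mul_of_nonneg_left ?_ (by positivity)
  rw [← setIntegral_congr_fun measurableSet_Ioi e3]
  refine setIntegral_mono_on h3' (sq_int hm hS hκ hc hq) measurableSet_Ioi fun x hx => ?_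
  have hx0 : (0 : ℝ) < x := lt_trans zero_lt_one hx
  have h5 : Real.exp (-(c * x / q')) ≤ Real.exp (-(c * x / q)) := by
    refine Real.exp_le_exp.2 (neg_le_neg ?_)
    exact div_le_div_of_nonneg_left (by positivity) hq' hqq
  have h6 : 0 < x ^ (-2 + 4 * κ) := Real.rpow_pos_of_pos hx0 _
  refine mul_le_mul_of_nonneg_left (mul_le_mul_of_nonneg_left ?_ h6.le) (by positivity)
  exact pow_le_pow_left₀ (Real.exp_pos _).le h5 2

theorem pf_FMS (hMOT : T_MOT) (hPBD : T_PBD) (hSPT : T_SPT) : T_FMS := by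
  intro ε hε
  obtain ⟨κ0, hκ0, hκ8, hM⟩ := hMOT (ε / 3) (by positivity)
  obtain ⟨C1, k1, c, hC1, hc, hP⟩ := hPBD
  obtain ⟨C2, k2, hC2, hM2⟩ := hM c hc
  obtain ⟨C0, hC0, hS⟩ := hSPT
  obtain ⟨κ, hκ⟩ : ∃ κ, κ = min κ0 (ε / 8) := ⟨_, rfl⟩
  have hκpos : 0 < κ := by rw [hκ]; exact lt_min hκ0 (by positivity)
  have hκκ : κ ≤ κ0 := by rw [hκ]; exact min_le_left _ _
  have hκε : κ ≤ ε / 8 := by rw [hκ]; exact min_le_right _ _
  have hκle : κ ≤ 1 / 8 := hκκ.trans hκ8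
  obtain ⟨a, ha⟩ : ∃ a, a = 4 * κ + ε / 3 := ⟨_, rfl⟩
  have hapos : 0 < a := by rw [ha]; positivity
  have hΓ : 0 < Real.Gamma a := Real.Gamma_pos_of_pos hapos
  have hca : 0 < (c⁻¹) ^ a := Real.rpow_pos_of_pos (by positivity) _
  refine ⟨κ, hκpos, hκle, C1 ^ 2 * (1 / (2 * κ)) * C2 * (c⁻¹ ^ a * Real.Gamma a),
    2 * k1 + k2 + ⌈a⌉₊, by positivity, ?_⟩
  intro s X K _ _ S F hs hX hF
  obtain ⟨T, hT⟩ : ∃ T, T = 1 + |s.im| := ⟨_, rfl⟩
  have hT1 : 1 ≤ T := by rw [hT]; linarith [abs_nonneg s.im]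
  have hT0 : 0 < T := by linarith
  have hX0 : 0 < X := by linarith
  obtain ⟨q, hq⟩ : ∃ q, q = Real.sqrt X * T := ⟨_, rfl⟩
  have hq0 : 0 < q := by rw [hq]; positivity
  rw [← hT]
  have hM3 : ∀ x : ℝ, 1 ≤ x → (∑ D ∈ S, ∑ ψ : CC (K D), ‖Sp ψ x‖ ^ 2 * ‖F D ψ s‖ ^ 2) *
      Real.exp (-(c * x / q)) ≤ C2 * T ^ k2 * X ^ (3 / 2 + ε / 3) * x ^ (1 + ε / 3) := by
    intro x hx
    rw [hq, hT]
    exact hM2 s X x K S F (hs.trans hκκ) hX hx hF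
  have hint : ∀ D ∈ S, ∀ ψ : CC (K D), IntegrableOn (fun x : ℝ =>
      ‖Sp ψ x‖ ^ 2 * ‖F D ψ s‖ ^ 2 * (x ^ (-2 + 4 * κ) * Real.exp (-(c * x / q)) ^ 2))
      (Ioi 1) := by
    intro D hD ψ
    obtain ⟨h1, h2⟩ := hS (K D) D (hF D hD).2.2.1 ψ
    have h3 : IntegrableOn (fun x : ℝ => ‖F D ψ s‖ ^ 2 * (‖Sp ψ x‖ ^ 2 *
        (x ^ (-2 + 4 * κ) * Real.exp (-(c * x / q)) ^ 2))) (Ioi 1) :=
      (sq_int h1 h2 hκpos hc hq0).const_mul _
    refine h3.congr_fun ?_ measurableSet_Ioi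
    intro x _
    show ‖F D ψ s‖ ^ 2 * (‖Sp ψ x‖ ^ 2 * (x ^ (-2 + 4 * κ) * Real.exp (-(c * x / q)) ^ 2)) =
      ‖Sp ψ x‖ ^ 2 * ‖F D ψ s‖ ^ 2 * (x ^ (-2 + 4 * κ) * Real.exp (-(c * x / q)) ^ 2)
    ring
  have hfour : ∀ D ∈ S, ∀ ψ : CC (K D), ‖F D ψ s‖ ^ 4 ≤
      C1 ^ 2 * T ^ (2 * k1) * X ^ (2 * κ) * (1 / (2 * κ)) * ∫ x in Ioi (1 : ℝ),
        ‖Sp ψ x‖ ^ 2 * ‖F D ψ s‖ ^ 2 * (x ^ (-2 + 4 * κ) * Real.exp (-(c * x / q)) ^ 2) := by
    intro D hD ψ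
    obtain ⟨h1, h2⟩ := hS (K D) D (hF D hD).2.2.1 ψ
    obtain ⟨-, hDX, hIQ, hLf⟩ := hF D hD
    obtain ⟨hi, hb⟩ := hP (K D) D hIQ ψ (F D ψ) (hLf ψ) s κ hs hκle
    rw [← hT] at hi hb
    have hD0 : (0 : ℝ) < D := by exact_mod_cast hIQ.pos
    have hq' : 0 < Real.sqrt D * T := by positivity
    have hqq : Real.sqrt D * T ≤ q := by
      rw [hq]
      exact mul_le_mul_of_nonneg_right (Real.sqrt_le_sqrt hDX) hT0.le
    have h3 := sq_le h1 h2 hκpos hc hq' hqq hi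
    have e1 : ∫ x in Ioi (1 : ℝ), ‖Sp ψ x‖ ^ 2 * ‖F D ψ s‖ ^ 2 *
        (x ^ (-2 + 4 * κ) * Real.exp (-(c * x / q)) ^ 2) = ‖F D ψ s‖ ^ 2 *
        ∫ x in Ioi (1 : ℝ), ‖Sp ψ x‖ ^ 2 *
          (x ^ (-2 + 4 * κ) * Real.exp (-(c * x / q)) ^ 2) := by
      rw [← integral_const_mul]
      refine integral_congr_ae (Eventually.of_forall fun x => ?_)
      show ‖Sp ψ x‖ ^ 2 * ‖F D ψ s‖ ^ 2 *
        (x ^ (-2 + 4 * κ) * Real.exp (-(c * x / q)) ^ 2) = ‖F D ψ s‖ ^ 2 *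
        (‖Sp ψ x‖ ^ 2 * (x ^ (-2 + 4 * κ) * Real.exp (-(c * x / q)) ^ 2))
      ring
    rw [e1]
    set J := ∫ x in Ioi (1 : ℝ), ‖Sp ψ x‖ ^ 2 *
          (x ^ (-2 + 4 * κ) * Real.exp (-(c * x / q)) ^ 2) with hJ
    set I := ∫ x in Ioi (1 : ℝ), ‖Sp ψ x‖ * x ^ (-(3 / 2) + κ) *
      Real.exp (-(c * x / (Real.sqrt D * T))) with hI
    have h4 : ‖F D ψ s‖ ^ 2 ≤ C1 ^ 2 * T ^ (2 * k1) * X ^ (2 * κ) * (1 / (2 * κ)) * J := by
      have h5 : (D : ℝ) ^ κ ≤ X ^ κ := Real.rpow_le_rpow hD0.le hDX hκpos.le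
      have h6 : ((D : ℝ) ^ κ) ^ 2 ≤ X ^ (2 * κ) := by
        have h7 : X ^ (2 * κ) = (X ^ κ) ^ 2 := by
          rw [mul_comm, Real.rpow_mul hX0.le]
          norm_num
        rw [h7]
        exact pow_le_pow_left₀ (Real.rpow_nonneg hD0.le _) h5 2
      calc ‖F D ψ s‖ ^ 2 ≤ (C1 * T ^ k1 * (D : ℝ) ^ κ * I) ^ 2 :=
            pow_le_pow_left₀ (norm_nonneg _) hb 2
        _ = C1 ^ 2 * T ^ (2 * k1) * ((D : ℝ) ^ κ) ^ 2 * I ^ 2 := by ring
        _ ≤ C1 ^ 2 * T ^ (2 * k1) * X ^ (2 * κ) * (1 / (2 * κ) * J) := by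
            refine mul_le_mul ?_ h3 (sq_nonneg _) (by positivity)
            exact mul_le_mul_of_nonneg_left h6 (by positivity)
        _ = C1 ^ 2 * T ^ (2 * k1) * X ^ (2 * κ) * (1 / (2 * κ)) * J := by ring
    calc ‖F D ψ s‖ ^ 4 = ‖F D ψ s‖ ^ 2 * ‖F D ψ s‖ ^ 2 := by ring
      _ ≤ ‖F D ψ s‖ ^ 2 * (C1 ^ 2 * T ^ (2 * k1) * X ^ (2 * κ) * (1 / (2 * κ)) * J) :=
          mul_le_mul_of_nonneg_left h4 (sq_nonneg _)
      _ = C1 ^ 2 * T ^ (2 * k1) * X ^ (2 * κ) * (1 / (2 * κ)) * (‖F D ψ s‖ ^ 2 * J) := by ring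
  have hA0 : 0 ≤ C1 ^ 2 * T ^ (2 * k1) * X ^ (2 * κ) * (1 / (2 * κ)) := by positivity
  have hsum : ∑ D ∈ S, ∑ ψ : CC (K D), ‖F D ψ s‖ ^ 4 ≤
      C1 ^ 2 * T ^ (2 * k1) * X ^ (2 * κ) * (1 / (2 * κ)) * ∫ x in Ioi (1 : ℝ),
        ∑ D ∈ S, ∑ ψ : CC (K D), ‖Sp ψ x‖ ^ 2 * ‖F D ψ s‖ ^ 2 *
          (x ^ (-2 + 4 * κ) * Real.exp (-(c * x / q)) ^ 2) := by
    rw [integral_finsetSum S (fun D hD => integrable_finsetSum _ fun ψ _ => hint D hD ψ),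
      Finset.mul_sum]
    refine Finset.sum_le_sum fun D hD => ?_
    rw [integral_finsetSum Finset.univ (fun ψ _ => hint D hD ψ), Finset.mul_sum]
    exact Finset.sum_le_sum fun ψ _ => hfour D hD ψ
  have hw := gam_int hapos hc hq0
  have hw1 : IntegrableOn (fun x : ℝ => x ^ (a - 1) * Real.exp (-(c * x / q))) (Ioi 1) :=
    hw.1.mono_set (Ioi_subset_Ioi zero_le_one)
  have hG : ∫ x in Ioi (1 : ℝ), ∑ D ∈ S, ∑ ψ : CC (K D), ‖Sp ψ x‖ ^ 2 * ‖F D ψ s‖ ^ 2 *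
      (x ^ (-2 + 4 * κ) * Real.exp (-(c * x / q)) ^ 2) ≤
      C2 * T ^ k2 * X ^ (3 / 2 + ε / 3) * ((q / c) ^ a * Real.Gamma a) := by
    have h1 : ∫ x in Ioi (1 : ℝ), ∑ D ∈ S, ∑ ψ : CC (K D), ‖Sp ψ x‖ ^ 2 * ‖F D ψ s‖ ^ 2 *
        (x ^ (-2 + 4 * κ) * Real.exp (-(c * x / q)) ^ 2) ≤
        ∫ x in Ioi (1 : ℝ), C2 * T ^ k2 * X ^ (3 / 2 + ε / 3) *
          (x ^ (a - 1) * Real.exp (-(c * x / q))) := by
      refine setIntegral_mono_on
        (integrable_finsetSum _ fun D hD => integrable_finsetSum _ fun ψ _ => hint D hD ψ)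
        (hw1.const_mul _) measurableSet_Ioi fun x hx => ?_
      have hx1 : (1 : ℝ) < x := hx
      have hx0 : (0 : ℝ) < x := by linarith
      have e1 : ∑ D ∈ S, ∑ ψ : CC (K D), ‖Sp ψ x‖ ^ 2 * ‖F D ψ s‖ ^ 2 *
          (x ^ (-2 + 4 * κ) * Real.exp (-(c * x / q)) ^ 2) =
          ((∑ D ∈ S, ∑ ψ : CC (K D), ‖Sp ψ x‖ ^ 2 * ‖F D ψ s‖ ^ 2) *
            Real.exp (-(c * x / q))) * (x ^ (-2 + 4 * κ) * Real.exp (-(c * x / q))) := by
        rw [mul_assoc, Finset.sum_mul]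
        refine Finset.sum_congr rfl fun D _ => ?_
        rw [Finset.sum_mul]
        refine Finset.sum_congr rfl fun ψ _ => ?_
        ring
      rw [e1]
      have h2 : 0 ≤ x ^ (-2 + 4 * κ) * Real.exp (-(c * x / q)) :=
        mul_nonneg (Real.rpow_nonneg hx0.le _) (Real.exp_pos _).le
      refine (mul_le_mul_of_nonneg_right (hM3 x hx1.le) h2).trans (le_of_eq ?_)
      have h3 : x ^ (a - 1) = x ^ (1 + ε / 3) * x ^ (-2 + 4 * κ) := by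
        rw [← Real.rpow_add hx0, ha]
        congr 1
        ring
      rw [h3]
      ring
    refine h1.trans ?_
    rw [integral_const_mul]
    refine mul_le_mul_of_nonneg_left ?_ (by positivity)
    rw [← hw.2]
    refine setIntegral_mono_set hw.1 ?_ (Ioi_subset_Ioi zero_le_one).eventuallyLE
    refine (ae_restrict_iff' measurableSet_Ioi).2 (Eventually.of_forall fun x hx => ?_)
    have hx0 : (0 : ℝ) < x := hx
    exact mul_nonneg (Real.rpow_nonneg hx0.le _) (Real.exp_pos _).le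
  refine hsum.trans ((mul_le_mul_of_nonneg_left hG hA0).trans ?_)
  have e1 : (q / c) ^ a = X ^ (a / 2) * T ^ a * c⁻¹ ^ a := by
    rw [hq, div_eq_mul_inv, Real.mul_rpow (by positivity) (by positivity),
      Real.mul_rpow (by positivity) hT0.le, Real.sqrt_eq_rpow, ← Real.rpow_mul hX0.le]
    congr 3
    ring
  have e2 : T ^ a ≤ T ^ ⌈a⌉₊ := by
    rw [← Real.rpow_natCast]
    exact Real.rpow_le_rpow_of_exponent_le hT1 (Nat.le_ceil a)
  have e3 : X ^ (2 * κ) * X ^ (3 / 2 + ε / 3) * X ^ (a / 2) ≤ X ^ (3 / 2 + ε) := by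
    rw [← Real.rpow_add hX0, ← Real.rpow_add hX0]
    refine Real.rpow_le_rpow_of_exponent_le hX ?_
    rw [ha]
    linarith
  calc C1 ^ 2 * T ^ (2 * k1) * X ^ (2 * κ) * (1 / (2 * κ)) *
        (C2 * T ^ k2 * X ^ (3 / 2 + ε / 3) * ((q / c) ^ a * Real.Gamma a))
      = C1 ^ 2 * (1 / (2 * κ)) * C2 * (c⁻¹ ^ a * Real.Gamma a) *
        (T ^ (2 * k1) * T ^ k2 * T ^ a) *
          (X ^ (2 * κ) * X ^ (3 / 2 + ε / 3) * X ^ (a / 2)) := by
        rw [e1]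
        ring
    _ ≤ C1 ^ 2 * (1 / (2 * κ)) * C2 * (c⁻¹ ^ a * Real.Gamma a) *
        (T ^ (2 * k1) * T ^ k2 * T ^ ⌈a⌉₊) * X ^ (3 / 2 + ε) := by
        refine mul_le_mul ?_ e3 (by positivity) (by positivity)
        refine mul_le_mul_of_nonneg_left ?_ (by positivity)
        exact mul_le_mul_of_nonneg_left e2 (by positivity)
    _ = C1 ^ 2 * (1 / (2 * κ)) * C2 * (c⁻¹ ^ a * Real.Gamma a) * T ^ (2 * k1 + k2 + ⌈a⌉₊) *
        X ^ (3 / 2 + ε) := by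
        rw [pow_add, pow_add]

end Pool.Agent.H92.FM
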